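import Pool.Agent.D0H44.DM.Stm2
import Pool.Agent.H448R2.GC.X2
import Pool.Agent.H448R2.GC.S0
import Pool.Agent.H448R2.GC.F0

/-! Tools for modules KD and KL: Gaussian integrals of zeta on vertical lines; a shift lemma for functions analytic in a strip. -/

set_option autoImplicit false

open Complex MeasureTheory Filter Topology

namespace Pool.Agent.D0H35.DM

theorem int_gauss (σ : ℝ) (h1 : 1 / 8 ≤ σ) (h2 : σ ≤ 7 / 8) (t : ℝ) :
    Integrable (fun x : ℝ => ‖riemannZeta ((σ : ℂ) + ((t + x : ℝ) : ℂ) * I)‖ * Real.exp (-x ^ 2)) := by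
  obtain ⟨C, hC, hg⟩ := Pool.Agent.H448R2.GC.zeta_growth_mid
  obtain ⟨D, hD, hp⟩ := Pool.Agent.H448R2.GC.F0.poly_le_exp 1 (1 / 2) (by norm_num)
  have hi : Integrable (fun x : ℝ => Real.exp (-(1 / 2) * x ^ 2)) :=
    integrable_exp_neg_mul_sq (by norm_num)
  refine (hi.const_mul (C * (1 + |t|) * D)).mono' ?_ (Eventually.of_forall fun x => ?_)
  · apply Continuous.aestronglyMeasurable
    have hz := Pool.Agent.H448R2.GC.F0.zeta_cont σ (by linarith)
    have hc : Continuous (fun x : ℝ => riemannZeta ((σ : ℂ) + ((t + x : ℝ) : ℂ) * I)) :=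
      hz.comp (by fun_prop : Continuous fun x : ℝ => t + x)
    exact hc.norm.mul (by fun_prop)
  · rw [Real.norm_of_nonneg (by positivity)]
    have e1 := hg ((σ : ℂ) + ((t + x : ℝ) : ℂ) * I) (by simpa using h1) (by simpa using h2)
    have e2 : ((σ : ℂ) + ((t + x : ℝ) : ℂ) * I).im = t + x := by simp
    rw [e2] at e1
    have e3 : 1 + |t + x| ≤ (1 + |t|) * (1 + |x|) := by
      have := abs_add_le t x
      nlinarith [abs_nonneg t, abs_nonneg x, mul_nonneg (abs_nonneg t) (abs_nonneg x)]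
    have e4 := hp x
    rw [pow_one] at e4
    calc ‖riemannZeta ((σ : ℂ) + ((t + x : ℝ) : ℂ) * I)‖ * Real.exp (-x ^ 2)
        ≤ (C * ((1 + |t|) * (D * Real.exp (1 / 2 * x ^ 2)))) * Real.exp (-x ^ 2) := by
          apply mul_le_mul_of_nonneg_right _ (Real.exp_pos _).le
          refine e1.trans (mul_le_mul_of_nonneg_left ?_ hC.le)
          exact e3.trans (mul_le_mul_of_nonneg_left e4 (by positivity))
      _ = C * (1 + |t|) * D * (Real.exp (1 / 2 * x ^ 2) * Real.exp (-x ^ 2)) := by ring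
      _ = C * (1 + |t|) * D * Real.exp (-(1 / 2) * x ^ 2) := by
          rw [← Real.exp_add]
          congr 2
          ring

theorem nexp (σ a y t : ℝ) :
    ‖cexp ((((σ : ℂ) + (y : ℂ) * I) - ((a : ℂ) + (t : ℂ) * I)) ^ 2)‖ = Real.exp ((σ - a) ^ 2 - (y - t) ^ 2) := by
  rw [Complex.norm_exp]
  congr 1
  rw [sq]
  simp [Complex.mul_re]
  ring

theorem zeta_an (z : ℂ) (hz : z ≠ 1) : AnalyticAt ℂ riemannZeta z := by
  have hd : DifferentiableOn ℂ riemannZeta ({1}ᶜ : Set ℂ) := fun w hw =>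
    (differentiableAt_riemannZeta hw).differentiableWithinAt
  exact hd.analyticAt (isOpen_compl_singleton.mem_nhds hz)

theorem integrable_line' (G : ℂ → ℂ) (p q : ℂ) (x C : ℝ) (hG : Continuous (fun y : ℝ => G ((x : ℂ) + (y : ℂ) * I)))
    (hp : x ≠ p.re) (hq : x ≠ q.re) (hC : ∀ z : ℂ, z.re = x → ‖G z‖ ≤ C) :
    Integrable (fun y : ℝ => G ((x : ℂ) + (y : ℂ) * I) /
      ((((x : ℂ) + (y : ℂ) * I) - p) * (((x : ℂ) + (y : ℂ) * I) - q))) := by
  have hC0 : 0 ≤ C := (norm_nonneg _).trans (hC (x : ℂ) (by simp))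
  have i1 := Pool.Agent.H448R2.GC.S0.integrable_inv (x - p.re) p.im (sub_ne_zero.2 hp)
  have i2 := Pool.Agent.H448R2.GC.S0.integrable_inv (x - q.re) q.im (sub_ne_zero.2 hq)
  refine Integrable.mono' ((i1.add i2).const_mul (C / 2)) ?_ (Eventually.of_forall fun y => ?_)
  · apply Continuous.aestronglyMeasurable
    apply Continuous.div
    · exact hG
    · fun_prop
    · intro y
      exact mul_ne_zero (Pool.Agent.H448R2.GC.S0.ne_of_re hp) (Pool.Agent.H448R2.GC.S0.ne_of_re hq)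
  · rw [norm_div, norm_mul]
    have hP : 0 < ‖((x : ℂ) + (y : ℂ) * I) - p‖ := norm_pos_iff.2 (Pool.Agent.H448R2.GC.S0.ne_of_re hp)
    have hQ : 0 < ‖((x : ℂ) + (y : ℂ) * I) - q‖ := norm_pos_iff.2 (Pool.Agent.H448R2.GC.S0.ne_of_re hq)
    simp only [Pi.add_apply]
    rw [← Pool.Agent.H448R2.GC.S0.norm_sub_sq, ← Pool.Agent.H448R2.GC.S0.norm_sub_sq]
    have h1 := hC ((x : ℂ) + (y : ℂ) * I) (Pool.Agent.H448R2.GC.S0.re_line x y)
    set a := ‖((x : ℂ) + (y : ℂ) * I) - p‖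
    set b := ‖((x : ℂ) + (y : ℂ) * I) - q‖
    calc ‖G ((x : ℂ) + (y : ℂ) * I)‖ / (a * b) ≤ C / (a * b) := by gcongr
      _ ≤ C / 2 * (1 / a ^ 2 + 1 / b ^ 2) := by
        have h2 : C / 2 * (1 / a ^ 2 + 1 / b ^ 2) - C / (a * b) =
            C / 2 * (1 / a - 1 / b) ^ 2 := by
          field_simp
          ring
        have h3 : 0 ≤ C / 2 * (1 / a - 1 / b) ^ 2 := by positivity
        linarith

/-- two poles, numerator analytic in the closed strip -/
theorem shift2' (G : ℂ → ℂ) (p q : ℂ) (x₀ x₁ C : ℝ)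
    (hG : ∀ z : ℂ, x₀ ≤ z.re → z.re ≤ x₁ → AnalyticAt ℂ G z) (hpq : p ≠ q)
    (hp0 : x₀ < p.re) (hp1 : p.re < x₁) (hq0 : x₀ < q.re) (hq1 : q.re < x₁)
    (hC : ∀ z : ℂ, x₀ ≤ z.re → z.re ≤ x₁ → ‖G z‖ ≤ C) :
    (∫ y : ℝ, G ((x₁ : ℂ) + (y : ℂ) * I) /
      ((((x₁ : ℂ) + (y : ℂ) * I) - p) * (((x₁ : ℂ) + (y : ℂ) * I) - q))) -
    (∫ y : ℝ, G ((x₀ : ℂ) + (y : ℂ) * I) /
      ((((x₀ : ℂ) + (y : ℂ) * I) - p) * (((x₀ : ℂ) + (y : ℂ) * I) - q))) =
    2 * Real.pi * (G p / (p - q) + G q / (q - p)) := by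
  have hx : x₀ < x₁ := hp0.trans hp1
  have hcont : ∀ x : ℝ, x₀ ≤ x → x ≤ x₁ → Continuous (fun y : ℝ => G ((x : ℂ) + (y : ℂ) * I)) := by
    intro x h0 h1
    rw [continuous_iff_continuousAt]
    intro y
    have h2 : ContinuousAt G ((x : ℂ) + (y : ℂ) * I) :=
      (hG _ (by simpa using h0) (by simpa using h1)).continuousAt
    exact ContinuousAt.comp (f := fun y : ℝ => (x : ℂ) + (y : ℂ) * I) h2 (by fun_prop)
  refine Pool.Agent.H448R2.GC.S0.core (fun z => G z / ((z - p) * (z - q))) x₀ x₁ hx.le _ (4 * C)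
    (2 * (1 + |p.im| + |q.im|)) ?_ ?_ ?_ ?_
  · intro z h0 h1 h2
    exact Pool.Agent.H448R2.GC.S0.bound_far G p q x₀ x₁ C hC z h0 h1 h2
  · exact integrable_line' G p q x₀ C (hcont x₀ le_rfl hx.le) hp0.ne hq0.ne
      (fun z hz => hC z hz.ge (hz.le.trans hx.le))
  · exact integrable_line' G p q x₁ C (hcont x₁ hx.le le_rfl) hp1.ne' hq1.ne'
      (fun z hz => hC z (hx.le.trans hz.ge) hz.le)
  · intro Y hY _
    have hpi : |p.im| < Y := by
      have := abs_nonneg q.im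
      have := abs_nonneg p.im
      linarith
    have hqi : |q.im| < Y := by
      have := abs_nonneg q.im
      have := abs_nonneg p.im
      linarith
    have hdf : ∀ s, HasDerivAt (fun z : ℂ => (z - p) * (z - q)) ((s - q) + (s - p)) s := by
      intro s
      have h1 : HasDerivAt (fun z : ℂ => z - p) 1 s := (hasDerivAt_id s).sub_const p
      have h2 : HasDerivAt (fun z : ℂ => z - q) 1 s := (hasDerivAt_id s).sub_const q
      have h3 : HasDerivAt (fun z : ℂ => (z - p) * (z - q)) (1 * (s - q) + (s - p) * 1) s :=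
        h1.mul h2
      rwa [one_mul, mul_one] at h3
    have hres := SG.rect_res (fun z => (z - p) * (z - q)) G x₀ x₁ (-Y) Y hx (by
        have := abs_nonneg p.im
        linarith) {p, q} ?_ ?_ ?_ ?_ ?_
    · rw [Finset.sum_pair hpq, (hdf p).deriv, (hdf q).deriv] at hres
      simpa using hres
    · intro z hz
      rw [Finset.mem_insert, Finset.mem_singleton] at hz
      rcases hz with rfl | rfl
      · exact ⟨⟨hp0, hp1⟩, (abs_lt.1 hpi)⟩
      · exact ⟨⟨hq0, hq1⟩, (abs_lt.1 hqi)⟩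
    · intro s _
      exact (by fun_prop : Differentiable ℂ fun z : ℂ => (z - p) * (z - q)).analyticAt s
    · intro s hs
      exact hG s hs.1.1 hs.1.2
    · intro s _
      rw [mul_eq_zero, sub_eq_zero, sub_eq_zero, Finset.mem_insert, Finset.mem_singleton]
    · intro z hz
      rw [Finset.mem_insert, Finset.mem_singleton] at hz
      rw [(hdf z).deriv]
      rcases hz with rfl | rfl
      · rw [sub_self, add_zero]
        exact sub_ne_zero.2 hpq
      · rw [sub_self, zero_add]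
        exact sub_ne_zero.2 (Ne.symm hpq)

end Pool.Agent.D0H35.DM
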