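import Pool.Agent.D0H35.DM.Kb

/-! Module 18 KD: the derivative of zeta on the critical line is bounded by Gaussian averages on the lines `1/2 ± δ`. -/

set_option autoImplicit false

open Complex MeasureTheory Filter Topology

namespace Pool.Agent.D0H35.DM

open Pool.Agent.D0H44.DM

theorem kd_line (σ t r : ℝ) (q : ℂ) (h1 : 1 / 8 ≤ σ) (h2 : σ ≤ 7 / 8) (hr : 0 < r) (hσ : |σ - 1 / 2| = r)
    (hq : r / 2 ≤ |σ - q.re|) :
    ‖∫ y : ℝ, (riemannZeta ((σ : ℂ) + (y : ℂ) * I) *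
        cexp ((((σ : ℂ) + (y : ℂ) * I) - (((1 / 2 : ℝ) : ℂ) + (t : ℂ) * I)) ^ 2)) /
      ((((σ : ℂ) + (y : ℂ) * I) - (((1 / 2 : ℝ) : ℂ) + (t : ℂ) * I)) * (((σ : ℂ) + (y : ℂ) * I) - q))‖ ≤
    2 / r ^ 2 * Real.exp (r ^ 2) *
      ∫ x : ℝ, ‖riemannZeta ((σ : ℂ) + ((t + x : ℝ) : ℂ) * I)‖ * Real.exp (-x ^ 2) := by
  have hi := int_gauss σ h1 h2 t
  rw [← integral_add_left_eq_self _ t, ← integral_const_mul]
  refine norm_integral_le_of_norm_le (hi.const_mul _) (Eventually.of_forall fun x => ?_)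
  rw [norm_div, norm_mul, norm_mul, nexp]
  have e1 : r ≤ ‖(((σ : ℂ) + ((t + x : ℝ) : ℂ) * I) - (((1 / 2 : ℝ) : ℂ) + (t : ℂ) * I))‖ := by
    refine le_trans ?_ (Complex.abs_re_le_norm _)
    rw [← hσ]
    simp
  have e2 : r / 2 ≤ ‖(((σ : ℂ) + ((t + x : ℝ) : ℂ) * I) - q)‖ := by
    refine le_trans ?_ (Complex.abs_re_le_norm _)
    simpa using hq
  have e3 : r * (r / 2) ≤ ‖(((σ : ℂ) + ((t + x : ℝ) : ℂ) * I) - (((1 / 2 : ℝ) : ℂ) + (t : ℂ) * I))‖ *
      ‖(((σ : ℂ) + ((t + x : ℝ) : ℂ) * I) - q)‖ := mul_le_mul e1 e2 (by positivity) (norm_nonneg _)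
  have e4 : Real.exp ((σ - 1 / 2) ^ 2 - (t + x - t) ^ 2) = Real.exp (r ^ 2) * Real.exp (-x ^ 2) := by
    rw [← Real.exp_add, ← hσ, sq_abs]
    congr 1
    ring
  rw [e4]
  calc ‖riemannZeta ((σ : ℂ) + ((t + x : ℝ) : ℂ) * I)‖ * (Real.exp (r ^ 2) * Real.exp (-x ^ 2)) /
      (‖(((σ : ℂ) + ((t + x : ℝ) : ℂ) * I) - (((1 / 2 : ℝ) : ℂ) + (t : ℂ) * I))‖ *
      ‖(((σ : ℂ) + ((t + x : ℝ) : ℂ) * I) - q)‖)
      ≤ ‖riemannZeta ((σ : ℂ) + ((t + x : ℝ) : ℂ) * I)‖ * (Real.exp (r ^ 2) * Real.exp (-x ^ 2)) /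
        (r * (r / 2)) := by
        apply div_le_div_of_nonneg_left (by positivity) (by positivity) e3
    _ = 2 / r ^ 2 * Real.exp (r ^ 2) *
        (‖riemannZeta ((σ : ℂ) + ((t + x : ℝ) : ℂ) * I)‖ * Real.exp (-x ^ 2)) := by
        field_simp

/-- **18 KD.** -/
theorem t_KD : S_KD := by
  intro δ hδ hδ4
  refine ⟨1 / δ ^ 2 * Real.exp (δ ^ 2), by positivity, fun t => ?_⟩
  have z1 : ∀ x : ℝ, zs δ (t + x) = riemannZeta (((1 / 2 + δ : ℝ) : ℂ) + ((t + x : ℝ) : ℂ) * I) := by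
    intro x
    unfold zs
    congr 1
    push_cast
    ring
  have z2 : ∀ x : ℝ, zs (-δ) (t + x) = riemannZeta (((1 / 2 - δ : ℝ) : ℂ) + ((t + x : ℝ) : ℂ) * I) := by
    intro x
    unfold zs
    congr 1
    push_cast
    ring
  have i1 := int_gauss (1 / 2 + δ) (by linarith) (by linarith) t
  have i2 := int_gauss (1 / 2 - δ) (by linarith) (by linarith) t
  have hsum : (fun x : ℝ => (‖zs δ (t + x)‖ + ‖zs (-δ) (t + x)‖) * Real.exp (-x ^ 2)) =
      fun x : ℝ => ‖riemannZeta (((1 / 2 + δ : ℝ) : ℂ) + ((t + x : ℝ) : ℂ) * I)‖ * Real.exp (-x ^ 2) +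
        ‖riemannZeta (((1 / 2 - δ : ℝ) : ℂ) + ((t + x : ℝ) : ℂ) * I)‖ * Real.exp (-x ^ 2) := by
    funext x
    rw [z1, z2]
    ring
  rw [hsum]
  refine ⟨i1.add i2, ?_⟩
  rw [integral_add i1 i2]
  set J1 : ℝ := ∫ x : ℝ, ‖riemannZeta (((1 / 2 + δ : ℝ) : ℂ) + ((t + x : ℝ) : ℂ) * I)‖ * Real.exp (-x ^ 2) with hJ1
  set J2 : ℝ := ∫ x : ℝ, ‖riemannZeta (((1 / 2 - δ : ℝ) : ℂ) + ((t + x : ℝ) : ℂ) * I)‖ * Real.exp (-x ^ 2) with hJ2
  have hJ1n : 0 ≤ J1 := integral_nonneg fun x => by positivity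
  have hJ2n : 0 ≤ J2 := integral_nonneg fun x => by positivity
  set p : ℂ := ((1 / 2 : ℝ) : ℂ) + (t : ℂ) * I with hp
  have hpre : p.re = 1 / 2 := by simp [hp]
  have hpim : p.im = t := by simp [hp]
  set F : ℂ → ℂ := fun w => riemannZeta w * cexp ((w - p) ^ 2) with hF
  have hne : ∀ z : ℂ, 1 / 2 - δ ≤ z.re → z.re ≤ 1 / 2 + δ → z ≠ 1 := by
    intro z _ h2 h
    rw [h, Complex.one_re] at h2
    linarith
  have hFan : ∀ z : ℂ, 1 / 2 - δ ≤ z.re → z.re ≤ 1 / 2 + δ → AnalyticAt ℂ F z := by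
    intro z h1 h2
    apply (zeta_an z (hne z h1 h2)).mul
    exact (by fun_prop : Differentiable ℂ fun w : ℂ => cexp ((w - p) ^ 2)).analyticAt z
  obtain ⟨C, hC, hg⟩ := Pool.Agent.H448R2.GC.zeta_growth_mid
  obtain ⟨D, hD, hpe⟩ := Pool.Agent.H448R2.GC.F0.poly_le_exp 1 1 (by norm_num)
  have hFb : ∀ z : ℂ, 1 / 2 - δ ≤ z.re → z.re ≤ 1 / 2 + δ → ‖F z‖ ≤ C * (1 + |t|) * D * Real.exp (δ ^ 2) := by
    intro z h1 h2
    have e0 : z = (z.re : ℂ) + (z.im : ℂ) * I := (Complex.re_add_im z).symm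
    have e1 := hg z (by linarith) (by linarith)
    have e2 : ‖cexp ((z - p) ^ 2)‖ = Real.exp ((z.re - 1 / 2) ^ 2 - (z.im - t) ^ 2) := by
      have := nexp z.re (1 / 2) z.im t
      rw [← e0] at this
      exact this
    have e3 : 1 + |z.im| ≤ (1 + |t|) * (1 + |z.im - t|) := by
      have : |z.im| ≤ |t| + |z.im - t| := by
        calc |z.im| = |t + (z.im - t)| := by ring_nf
          _ ≤ |t| + |z.im - t| := abs_add_le _ _
      nlinarith [abs_nonneg t, abs_nonneg (z.im - t), mul_nonneg (abs_nonneg t) (abs_nonneg (z.im - t))]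
    have e4 := hpe (z.im - t)
    rw [pow_one, one_mul] at e4
    have e5 : Real.exp ((z.re - 1 / 2) ^ 2 - (z.im - t) ^ 2) ≤ Real.exp (δ ^ 2 - (z.im - t) ^ 2) := by
      apply Real.exp_le_exp.2
      have : (z.re - 1 / 2) ^ 2 ≤ δ ^ 2 := sq_le_sq' (by linarith) (by linarith)
      linarith
    change ‖riemannZeta z * cexp ((z - p) ^ 2)‖ ≤ _
    rw [norm_mul, e2]
    calc ‖riemannZeta z‖ * Real.exp ((z.re - 1 / 2) ^ 2 - (z.im - t) ^ 2)
        ≤ (C * ((1 + |t|) * (D * Real.exp ((z.im - t) ^ 2)))) * Real.exp (δ ^ 2 - (z.im - t) ^ 2) := by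
          apply mul_le_mul _ e5 (Real.exp_pos _).le (by positivity)
          refine e1.trans (mul_le_mul_of_nonneg_left ?_ hC.le)
          exact e3.trans (mul_le_mul_of_nonneg_left e4 (by positivity))
      _ = C * (1 + |t|) * D * (Real.exp ((z.im - t) ^ 2) * Real.exp (δ ^ 2 - (z.im - t) ^ 2)) := by ring
      _ = C * (1 + |t|) * D * Real.exp (δ ^ 2) := by
          rw [← Real.exp_add]
          congr 2
          ring
  -- the Lipschitz bound
  have hlip : ∀ q : ℂ, ‖q - p‖ ≤ δ / 2 →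
      ‖F q - F p‖ ≤ (1 / δ ^ 2 * Real.exp (δ ^ 2) * (J1 + J2)) * ‖q - p‖ := by
    intro q hq
    rcases eq_or_ne q p with h | hqp
    · rw [h]
      simp
    · have hre : |q.re - 1 / 2| ≤ δ / 2 := by
        refine le_trans ?_ hq
        have := Complex.abs_re_le_norm (q - p)
        rwa [Complex.sub_re, hpre] at this
      rw [abs_le] at hre
      have hs := shift2' F p q (1 / 2 - δ) (1 / 2 + δ) (C * (1 + |t|) * D * Real.exp (δ ^ 2)) hFan hqp.symm
        (by rw [hpre]; linarith) (by rw [hpre]; linarith) (by linarith [hre.1]) (by linarith [hre.2]) hFb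
      have b1 := kd_line (1 / 2 + δ) t δ q (by linarith) (by linarith) hδ
        (by rw [add_sub_cancel_left, abs_of_pos hδ])
        (by rw [abs_of_nonneg (by linarith [hre.2])]; linarith [hre.2])
      have b2 := kd_line (1 / 2 - δ) t δ q (by linarith) (by linarith) hδ
        (by rw [sub_sub_cancel_left, abs_neg, abs_of_pos hδ])
        (by rw [abs_sub_comm, abs_of_nonneg (by linarith [hre.1])]; linarith [hre.1])
      have hpq : p - q ≠ 0 := sub_ne_zero.2 hqp.symm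
      have hqp' : q - p ≠ 0 := sub_ne_zero.2 hqp
      have hval : F p / (p - q) + F q / (q - p) = (F q - F p) / (q - p) := by
        field_simp
        ring
      rw [hval] at hs
      have hn : ‖(2 * (Real.pi : ℂ) * ((F q - F p) / (q - p)))‖ ≤
          2 / δ ^ 2 * Real.exp (δ ^ 2) * J1 + 2 / δ ^ 2 * Real.exp (δ ^ 2) * J2 := by
        rw [← hs]
        exact (norm_sub_le _ _).trans (add_le_add b1 b2)
      rw [norm_mul, norm_mul, norm_div, Complex.norm_real, Real.norm_of_nonneg Real.pi_pos.le] at hn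
      have h2 : ‖(2 : ℂ)‖ = 2 := by simp
      rw [h2] at hn
      have hd : 0 < ‖q - p‖ := norm_pos_iff.2 hqp'
      have h3 : ‖F q - F p‖ / ‖q - p‖ ≤ 1 / δ ^ 2 * Real.exp (δ ^ 2) * (J1 + J2) := by
        have h4 : 0 ≤ ‖F q - F p‖ / ‖q - p‖ := by positivity
        have h5 : 2 * (‖F q - F p‖ / ‖q - p‖) ≤ 2 * Real.pi * (‖F q - F p‖ / ‖q - p‖) := by
          nlinarith [Real.pi_gt_three]
        have h6 : 2 / δ ^ 2 * Real.exp (δ ^ 2) * J1 + 2 / δ ^ 2 * Real.exp (δ ^ 2) * J2 =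
            2 * (1 / δ ^ 2 * Real.exp (δ ^ 2) * (J1 + J2)) := by ring
        rw [h6] at hn
        linarith
      rwa [div_le_iff₀ hd] at h3
  have hp1 : p ≠ 1 := hne p (by rw [hpre]; linarith) (by rw [hpre]; linarith)
  have hder : HasDerivAt F (zd t) p := by
    have d1 : HasDerivAt riemannZeta (deriv riemannZeta p) p := (differentiableAt_riemannZeta hp1).hasDerivAt
    have d2 : HasDerivAt (fun w : ℂ => (w - p) ^ 2) (2 * (p - p)) p := by
      have := ((hasDerivAt_id' p).sub_const p).fun_pow 2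
      simpa using this
    have d3 := d1.fun_mul d2.cexp
    have hz : zd t = deriv riemannZeta p := by
      unfold zd
      congr 1
      rw [hp]
      push_cast
      ring
    rw [hz]
    have e : deriv riemannZeta p * cexp ((p - p) ^ 2) + riemannZeta p * (cexp ((p - p) ^ 2) * (2 * (p - p))) =
        deriv riemannZeta p := by
      rw [sub_self]
      simp
    rw [e] at d3
    exact d3
  refine hder.le_of_lip' (by positivity) ?_
  filter_upwards [Metric.ball_mem_nhds p (half_pos hδ)] with q hq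
  apply hlip q
  rw [Metric.mem_ball, dist_eq_norm] at hq
  exact hq.le

end Pool.Agent.D0H35.DM
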