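import Pool.Agent.D0H35.DM.Kb

/-! Module 19 KL: zeta on the line `1/2 + δ` is bounded by a Gaussian average on the critical line. -/

set_option autoImplicit false

open Complex MeasureTheory Filter Topology

namespace Pool.Agent.D0H35.DM

open Pool.Agent.D0H44.DM

theorem zeta_two : ∃ M : ℝ, 0 < M ∧ ∀ y : ℝ, ‖riemannZeta (((2 : ℝ) : ℂ) + (y : ℂ) * I)‖ ≤ M := by
  have hsum : Summable (fun n : ℕ => 1 / ((n : ℝ) + 1) ^ 2) := by
    have := (summable_nat_add_iff 1).2 (Real.summable_one_div_nat_pow.2 (by norm_num : 1 < 2))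
    simpa using this
  refine ⟨∑' n : ℕ, 1 / ((n : ℝ) + 1) ^ 2, ?_, fun y => ?_⟩
  · exact hsum.tsum_pos (fun n => by positivity) 0 (by norm_num)
  · have hre : 1 < ((((2 : ℝ) : ℂ) + (y : ℂ) * I)).re := by simp
    rw [zeta_eq_tsum_one_div_nat_add_one_cpow hre]
    have hn : ∀ n : ℕ, ‖1 / ((n : ℂ) + 1) ^ (((2 : ℝ) : ℂ) + (y : ℂ) * I)‖ = 1 / ((n : ℝ) + 1) ^ 2 := by
      intro n
      rw [norm_div, norm_one]
      congr 1
      have h1 : ((n : ℂ) + 1) = ((n + 1 : ℕ) : ℂ) := by push_cast; ring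
      rw [h1, Complex.norm_natCast_cpow_of_pos (by omega)]
      have h2 : ((((2 : ℝ) : ℂ) + (y : ℂ) * I)).re = (2 : ℝ) := by simp
      rw [h2]
      push_cast
      exact Real.rpow_ofNat _ 2
    have h3 : Summable (fun n : ℕ => ‖1 / ((n : ℂ) + 1) ^ (((2 : ℝ) : ℂ) + (y : ℂ) * I)‖) := by
      simp_rw [hn]
      exact hsum
    refine (norm_tsum_le_tsum_norm h3).trans (le_of_eq ?_)
    simp_rw [hn]

/-- the entire function `(w - 1) ζ(w)` -/
noncomputable def Zf : ℂ → ℂ := Function.update (fun w : ℂ => (w - 1) * riemannZeta w) 1 1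

theorem Zf_one : Zf 1 = 1 := by
  unfold Zf
  simp

theorem Zf_ne {w : ℂ} (hw : w ≠ 1) : Zf w = (w - 1) * riemannZeta w := by
  unfold Zf
  rw [Function.update_of_ne hw]

/-- the integrand on a vertical line `Re w = σ ≠ 1`, with `s = a + i t`, `|σ - a| ≥ r` -/
theorem kl_pt (σ a t r x : ℝ) (hσ : σ ≠ 1) (hr : 0 < r) (hra : r ≤ |σ - a|) :
    ‖(Zf ((σ : ℂ) + ((t + x : ℝ) : ℂ) * I) *
        cexp ((((σ : ℂ) + ((t + x : ℝ) : ℂ) * I) - ((a : ℂ) + (t : ℂ) * I)) ^ 2)) /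
      ((((σ : ℂ) + ((t + x : ℝ) : ℂ) * I) - 1) * (((σ : ℂ) + ((t + x : ℝ) : ℂ) * I) - ((a : ℂ) + (t : ℂ) * I)))‖ ≤
    1 / r * Real.exp ((σ - a) ^ 2) *
      (‖riemannZeta ((σ : ℂ) + ((t + x : ℝ) : ℂ) * I)‖ * Real.exp (-x ^ 2)) := by
  set w : ℂ := (σ : ℂ) + ((t + x : ℝ) : ℂ) * I with hw
  have hw1 : w ≠ 1 := by
    intro h
    apply hσ
    have := congrArg Complex.re h
    simpa [hw] using this
  have hw1' : w - 1 ≠ 0 := sub_ne_zero.2 hw1
  have e0 : ‖cexp ((w - ((a : ℂ) + (t : ℂ) * I)) ^ 2)‖ = Real.exp ((σ - a) ^ 2) * Real.exp (-x ^ 2) := by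
    rw [hw, nexp, ← Real.exp_add]
    congr 1
    ring
  have e1 : r ≤ ‖w - ((a : ℂ) + (t : ℂ) * I)‖ := by
    refine le_trans ?_ (Complex.abs_re_le_norm _)
    simpa [hw] using hra
  rw [Zf_ne hw1]
  have e2 : (w - 1) * riemannZeta w * cexp ((w - ((a : ℂ) + (t : ℂ) * I)) ^ 2) /
      ((w - 1) * (w - ((a : ℂ) + (t : ℂ) * I))) =
      riemannZeta w * cexp ((w - ((a : ℂ) + (t : ℂ) * I)) ^ 2) / (w - ((a : ℂ) + (t : ℂ) * I)) := by
    rw [mul_assoc, mul_div_mul_left _ _ hw1']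
  rw [e2, norm_div, norm_mul, e0]
  calc ‖riemannZeta w‖ * (Real.exp ((σ - a) ^ 2) * Real.exp (-x ^ 2)) / ‖w - ((a : ℂ) + (t : ℂ) * I)‖
      ≤ ‖riemannZeta w‖ * (Real.exp ((σ - a) ^ 2) * Real.exp (-x ^ 2)) / r := by
        apply div_le_div_of_nonneg_left (by positivity) hr e1
    _ = 1 / r * Real.exp ((σ - a) ^ 2) * (‖riemannZeta w‖ * Real.exp (-x ^ 2)) := by
        field_simp

/-- **19 KL.** -/
theorem t_KL : S_KL := by
  intro δ hδ hδ4
  obtain ⟨M, hM, hMb⟩ := zeta_two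
  set K2 : ℝ := ∫ x : ℝ, 1 / 1 * Real.exp ((2 - (1 / 2 + δ)) ^ 2) * (M * Real.exp (-x ^ 2)) with hK2
  have hK2n : 0 ≤ K2 := integral_nonneg fun x => by positivity
  refine ⟨4 * Real.exp 1 + K2 + 1 / δ * Real.exp (δ ^ 2), by positivity, fun t => ?_⟩
  have z1 : ∀ x : ℝ, zl (t + x) = riemannZeta (((1 / 2 : ℝ) : ℂ) + ((t + x : ℝ) : ℂ) * I) := by
    intro x
    unfold zl
    congr 1
    push_cast
    ring
  have i1 := int_gauss (1 / 2) (by norm_num) (by norm_num) t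
  have hfun : (fun x : ℝ => ‖zl (t + x)‖ * Real.exp (-x ^ 2)) =
      fun x : ℝ => ‖riemannZeta (((1 / 2 : ℝ) : ℂ) + ((t + x : ℝ) : ℂ) * I)‖ * Real.exp (-x ^ 2) := by
    funext x
    rw [z1]
  rw [hfun]
  refine ⟨i1, ?_⟩
  set J : ℝ := ∫ x : ℝ, ‖riemannZeta (((1 / 2 : ℝ) : ℂ) + ((t + x : ℝ) : ℂ) * I)‖ * Real.exp (-x ^ 2) with hJ
  have hJn : 0 ≤ J := integral_nonneg fun x => by positivity
  set s : ℂ := ((1 / 2 + δ : ℝ) : ℂ) + (t : ℂ) * I with hs
  have hsre : s.re = 1 / 2 + δ := by simp [hs]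
  have hs1 : s ≠ 1 := by
    intro h
    rw [h, Complex.one_re] at hsre
    linarith
  set G : ℂ → ℂ := fun w => Zf w * cexp ((w - s) ^ 2) with hG
  have hGd : Differentiable ℂ G := by
    have h1 : Differentiable ℂ Zf := Pool.Agent.H448R2.GC.zeta_one_entire
    have h2 : Differentiable ℂ (fun w : ℂ => cexp ((w - s) ^ 2)) := by fun_prop
    exact h1.mul h2
  obtain ⟨C, B, hC, hg⟩ := Pool.Agent.H448R2.GC.zeta_one_growth 0
  obtain ⟨D, hD, hpe⟩ := Pool.Agent.H448R2.GC.F0.poly_le_exp B 1 (by norm_num)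
  have hGb : ∀ z : ℂ, 1 / 2 ≤ z.re → z.re ≤ 2 → ‖G z‖ ≤ C * (1 + |t|) ^ B * D * Real.exp 4 := by
    intro z h1 h2
    have e0 : z = (z.re : ℂ) + (z.im : ℂ) * I := (Complex.re_add_im z).symm
    have e1 : ‖Zf z‖ ≤ C * (1 + |z.im|) ^ B := hg z (by linarith) (by linarith)
    have e2 : ‖cexp ((z - s) ^ 2)‖ = Real.exp ((z.re - (1 / 2 + δ)) ^ 2 - (z.im - t) ^ 2) := by
      have := nexp z.re (1 / 2 + δ) z.im t
      rw [← e0] at this
      exact this
    have e3 : (1 + |z.im|) ^ B ≤ (1 + |t|) ^ B * (1 + |z.im - t|) ^ B := by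
      rw [← mul_pow]
      apply pow_le_pow_left₀ (by positivity)
      have : |z.im| ≤ |t| + |z.im - t| := by
        calc |z.im| = |t + (z.im - t)| := by ring_nf
          _ ≤ |t| + |z.im - t| := abs_add_le _ _
      nlinarith [abs_nonneg t, abs_nonneg (z.im - t), mul_nonneg (abs_nonneg t) (abs_nonneg (z.im - t))]
    have e4 := hpe (z.im - t)
    rw [one_mul] at e4
    have e5 : Real.exp ((z.re - (1 / 2 + δ)) ^ 2 - (z.im - t) ^ 2) ≤ Real.exp (4 - (z.im - t) ^ 2) := by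
      apply Real.exp_le_exp.2
      have : (z.re - (1 / 2 + δ)) ^ 2 ≤ 2 ^ 2 := sq_le_sq' (by linarith) (by linarith)
      linarith
    change ‖Zf z * cexp ((z - s) ^ 2)‖ ≤ _
    rw [norm_mul, e2]
    calc ‖Zf z‖ * Real.exp ((z.re - (1 / 2 + δ)) ^ 2 - (z.im - t) ^ 2)
        ≤ (C * ((1 + |t|) ^ B * (D * Real.exp ((z.im - t) ^ 2)))) * Real.exp (4 - (z.im - t) ^ 2) := by
          apply mul_le_mul _ e5 (Real.exp_pos _).le (by positivity)
          refine e1.trans (mul_le_mul_of_nonneg_left ?_ hC.le)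
          exact e3.trans (mul_le_mul_of_nonneg_left e4 (by positivity))
      _ = C * (1 + |t|) ^ B * D * (Real.exp ((z.im - t) ^ 2) * Real.exp (4 - (z.im - t) ^ 2)) := by ring
      _ = C * (1 + |t|) ^ B * D * Real.exp 4 := by
          rw [← Real.exp_add]
          congr 2
          ring
  have hsh := Pool.Agent.H448R2.GC.shift2 G 1 s (1 / 2) 2 (C * (1 + |t|) ^ B * D * Real.exp 4) hGd hs1.symm
    (by rw [Complex.one_re]; norm_num) (by rw [Complex.one_re]; norm_num) (by rw [hsre]; linarith)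
    (by rw [hsre]; linarith) hGb
  -- the two line integrals
  have b2 : ‖∫ y : ℝ, G (((2 : ℝ) : ℂ) + (y : ℂ) * I) /
      (((((2 : ℝ) : ℂ) + (y : ℂ) * I) - 1) * ((((2 : ℝ) : ℂ) + (y : ℂ) * I) - s))‖ ≤ K2 := by
    rw [← integral_add_left_eq_self _ t]
    have hgi : Integrable (fun x : ℝ => Real.exp (-x ^ 2)) := by
      have := integrable_exp_neg_mul_sq (b := 1) (by norm_num)
      simpa using this
    refine norm_integral_le_of_norm_le ((hgi.const_mul M).const_mul _) (Eventually.of_forall fun x => ?_)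
    refine (kl_pt 2 (1 / 2 + δ) t 1 x (by norm_num) (by norm_num)
      (by rw [abs_of_nonneg (by linarith)]; linarith)).trans ?_
    apply mul_le_mul_of_nonneg_left _ (by positivity)
    exact mul_le_mul_of_nonneg_right (hMb (t + x)) (Real.exp_pos _).le
  have b1 : ‖∫ y : ℝ, G (((1 / 2 : ℝ) : ℂ) + (y : ℂ) * I) /
      (((((1 / 2 : ℝ) : ℂ) + (y : ℂ) * I) - 1) * ((((1 / 2 : ℝ) : ℂ) + (y : ℂ) * I) - s))‖ ≤
      1 / δ * Real.exp (δ ^ 2) * J := by
    rw [← integral_add_left_eq_self _ t, ← integral_const_mul]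
    refine norm_integral_le_of_norm_le (i1.const_mul _) (Eventually.of_forall fun x => ?_)
    have h := kl_pt (1 / 2) (1 / 2 + δ) t δ x (by norm_num) hδ
      (by rw [abs_sub_comm, add_sub_cancel_left, abs_of_pos hδ])
    have h' : ((1 : ℝ) / 2 - (1 / 2 + δ)) ^ 2 = δ ^ 2 := by ring
    rw [h'] at h
    exact h
  have hs1' : s - 1 ≠ 0 := sub_ne_zero.2 hs1
  have g1 : G s / (s - 1) = riemannZeta s := by
    change Zf s * cexp ((s - s) ^ 2) / (s - 1) = _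
    rw [Zf_ne hs1, sub_self]
    simp only [ne_eq, OfNat.ofNat_ne_zero, not_false_eq_true, zero_pow, Complex.exp_zero, mul_one]
    field_simp
  have g2 : ‖G 1 / (1 - s)‖ ≤ 4 * Real.exp 1 := by
    change ‖Zf 1 * cexp ((1 - s) ^ 2) / (1 - s)‖ ≤ _
    rw [Zf_one, one_mul, norm_div]
    have e1 : ‖cexp ((1 - s) ^ 2)‖ ≤ Real.exp 1 := by
      have := nexp 1 (1 / 2 + δ) 0 t
      have h0 : (((1 : ℝ) : ℂ) + ((0 : ℝ) : ℂ) * I) = 1 := by simp
      rw [h0] at this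
      rw [this]
      apply Real.exp_le_exp.2
      have h1 : (1 - (1 / 2 + δ)) ^ 2 ≤ 1 := by nlinarith
      nlinarith [sq_nonneg (0 - t)]
    have e2 : 1 / 4 ≤ ‖1 - s‖ := by
      refine le_trans ?_ (Complex.abs_re_le_norm _)
      rw [Complex.sub_re, Complex.one_re, hsre, abs_of_nonneg (by linarith)]
      linarith
    calc ‖cexp ((1 - s) ^ 2)‖ / ‖1 - s‖ ≤ Real.exp 1 / (1 / 4) :=
          div_le_div₀ (Real.exp_pos _).le e1 (by norm_num) e2
      _ = 4 * Real.exp 1 := by ring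
  have hn : ‖(2 * (Real.pi : ℂ) * (G 1 / (1 - s) + G s / (s - 1)))‖ ≤ K2 + 1 / δ * Real.exp (δ ^ 2) * J := by
    rw [← hsh]
    exact (norm_sub_le _ _).trans (add_le_add b2 b1)
  rw [norm_mul, norm_mul, Complex.norm_real, Real.norm_of_nonneg Real.pi_pos.le, g1] at hn
  have h2 : ‖(2 : ℂ)‖ = 2 := by simp
  rw [h2] at hn
  have h3 : ‖G 1 / (1 - s) + riemannZeta s‖ ≤ K2 + 1 / δ * Real.exp (δ ^ 2) * J := by
    have h4 := norm_nonneg (G 1 / (1 - s) + riemannZeta s)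
    nlinarith [Real.pi_gt_three]
  have hz : zs δ t = riemannZeta s := by
    unfold zs
    congr 1
    rw [hs]
    push_cast
    ring
  rw [hz]
  have h5 : ‖riemannZeta s‖ ≤ ‖G 1 / (1 - s) + riemannZeta s‖ + ‖G 1 / (1 - s)‖ := by
    have := norm_sub_le (G 1 / (1 - s) + riemannZeta s) (G 1 / (1 - s))
    rwa [add_sub_cancel_left] at this
  have h6 : 0 ≤ (4 * Real.exp 1 + K2) * J := by positivity
  have h7 : 0 < 1 / δ * Real.exp (δ ^ 2) := by positivity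
  nlinarith

end Pool.Agent.D0H35.DM
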