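import Pool.Agent.D0H44.DM.Stm

/-!
# Module MS of DM: measurability, periodicity, additivity
-/

set_option autoImplicit false

open MeasureTheory Set Filter

namespace Pool.Agent.D0H35.DM

open Pool.Agent.D0H44.DM

lemma ct_zero {f : ℝ → ℝ} {x y v : ℝ} (h : |x| + |y| < |v|) : ct f x y v = 0 := by
  unfold ct
  rw [indicator_of_notMem]
  rintro ⟨h1, h2⟩
  have h3 : |v| ≤ |x| + |y| := by
    rw [abs_le]
    constructor
    · linarith [neg_abs_le x, abs_nonneg y]
    · linarith [le_abs_self y, abs_nonneg x]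
  linarith

lemma ct_meas {f : ℝ → ℝ} (hf : Continuous f) (x y : ℝ) : Measurable (ct f x y) :=
  hf.measurable.indicator measurableSet_Ioc

/-- outside a fixed finite set of `n` the terms vanish -/
lemma exists_N (x y a B : ℝ) (ha : 0 < a) : ∃ N : ℤ, ∀ (f : ℝ → ℝ) (α β : ℝ), a ≤ α → |β| ≤ B →
    ∀ n : ℤ, n ∉ Finset.Icc (-N) N → ct f x y (α * n + β) = 0 := by
  refine ⟨⌈(|x| + |y| + B) / a⌉, ?_⟩
  intro f α β hα hβ n hn
  apply ct_zero
  have h1 : (|x| + |y| + B) / a < |(n : ℝ)| := by
    rw [Finset.mem_Icc, not_and_or, not_le, not_le] at hn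
    have h2 := Int.le_ceil ((|x| + |y| + B) / a)
    rcases hn with h | h
    · have h3 : (n : ℝ) < -(⌈(|x| + |y| + B) / a⌉ : ℝ) := by exact_mod_cast h
      have := neg_le_abs (n : ℝ)
      linarith
    · have h3 : (⌈(|x| + |y| + B) / a⌉ : ℝ) < (n : ℝ) := by exact_mod_cast h
      have := le_abs_self (n : ℝ)
      linarith
  rw [div_lt_iff₀ ha] at h1
  have h4 : |α * n| ≤ |α * n + β| + |β| := by
    have := abs_sub (α * n + β) β
    simpa using this
  rw [abs_mul] at h4
  have h5 : a * |(n : ℝ)| ≤ |α| * |(n : ℝ)| :=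
    mul_le_mul_of_nonneg_right (hα.trans (le_abs_self α)) (abs_nonneg _)
  nlinarith

lemma sm_eq_sum {f : ℝ → ℝ} {x y α β : ℝ} {N : ℤ}
    (h : ∀ n : ℤ, n ∉ Finset.Icc (-N) N → ct f x y (α * n + β) = 0) :
    sm f x y α β = ∑ n ∈ Finset.Icc (-N) N, ct f x y (α * n + β) := by
  unfold sm
  exact tsum_eq_sum h

lemma sm_periodic (f : ℝ → ℝ) (x y α β : ℝ) : sm f x y α (β + α) = sm f x y α β := by
  unfold sm
  rw [← (Equiv.addRight (1 : ℤ)).tsum_eq (fun n : ℤ => ct f x y (α * n + β))]
  congr 1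
  funext n
  congr 1
  simp only [Equiv.coe_addRight]
  push_cast
  ring

lemma summable_ct (f : ℝ → ℝ) (x y : ℝ) {α : ℝ} (hα : 0 < α) (β : ℝ) :
    Summable (fun n : ℤ => ct f x y (α * n + β)) := by
  obtain ⟨N, hN⟩ := exists_N x y α |β| hα
  exact summable_of_ne_finset_zero (s := Finset.Icc (-N) N) (hN f α β le_rfl le_rfl)

theorem t_MS : S_MS := by
  refine ⟨?_, ?_, ?_⟩
  · intro f x y a B hf ha
    obtain ⟨N, hN⟩ := exists_N x y a B ha
    have h1 : Measurable (fun p : ℝ × ℝ => (∑ n ∈ Finset.Icc (-N) N, ct f x y (p.1 * n + p.2)) -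
        (∫ t in x..y, f t) / p.1) := by
      apply Measurable.sub
      · refine Finset.measurable_sum _ fun n _ => ?_
        exact (ct_meas hf x y).comp (by fun_prop)
      · fun_prop
    refine h1.aemeasurable.congr ?_
    rw [Filter.EventuallyEq, ae_restrict_iff' (measurableSet_Icc.prod measurableSet_Icc)]
    refine Filter.Eventually.of_forall fun p hp => ?_
    obtain ⟨hp1, hp2⟩ := hp
    unfold dd
    rw [sm_eq_sum (hN f p.1 p.2 hp1.1 (abs_le.mpr hp2))]
  · intro f x y α β
    unfold dd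
    rw [sm_periodic]
  · intro f x y z α β hf hxy hyz hα
    unfold dd
    have h1 : sm f x z α β = sm f x y α β + sm f y z α β := by
      unfold sm
      rw [← (summable_ct f x y hα β).tsum_add (summable_ct f y z hα β)]
      congr 1
      funext n
      unfold ct
      have h2 : Ioc x z = Ioc x y ∪ Ioc y z := (Ioc_union_Ioc_eq_Ioc hxy hyz).symm
      have hdisj : Disjoint (Ioc x y) (Ioc y z) := by
        rw [Set.disjoint_left]
        intro v hv hv'
        exact absurd hv.2 (not_le.mpr hv'.1)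
      rw [h2, indicator_union_of_disjoint hdisj]
    have h3 : ∫ t in x..z, f t = (∫ t in x..y, f t) + ∫ t in y..z, f t :=
      (intervalIntegral.integral_add_adjacent_intervals (hf.intervalIntegrable _ _)
        (hf.intervalIntegrable _ _)).symm
    rw [h1, h3]
    ring

end Pool.Agent.D0H35.DM
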