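import Pool.Agent.D0H35.DM.Ms

/-!
# Module UNF of DM: the mean square for fixed `α`
-/

set_option autoImplicit false

open MeasureTheory Set Filter

namespace Pool.Agent.D0H35.DM

open Pool.Agent.D0H44.DM

lemma ct_bdd {f : ℝ → ℝ} (hf : Continuous f) (x y : ℝ) : ∃ K : ℝ, 0 ≤ K ∧ ∀ v, |ct f x y v| ≤ K := by
  obtain ⟨K, hK⟩ := (isCompact_Icc (a := x) (b := y)).exists_bound_of_continuousOn hf.continuousOn
  refine ⟨max K 0, le_max_right _ _, fun v => ?_⟩
  unfold ct
  by_cases h : v ∈ Ioc x y
  · rw [indicator_of_mem h]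
    exact (hK v (Ioc_subset_Icc_self h)).trans (le_max_left _ _)
  · rw [indicator_of_notMem h, abs_zero]
    exact le_max_right _ _

lemma integrable_of_bdd {φ : ℝ → ℝ} (hm : Measurable φ) {M R : ℝ} (hb : ∀ v, |φ v| ≤ M)
    (hR : ∀ v, R < |v| → φ v = 0) : Integrable φ := by
  have h1 : IntegrableOn φ (Icc (-R) R) := by
    refine Measure.integrableOn_of_bounded (M := M) ?_ hm.aestronglyMeasurable ?_
    · exact measure_Icc_lt_top.ne
    · exact Filter.Eventually.of_forall fun v => hb v
  refine (integrableOn_iff_integrable_of_support_subset ?_).mp h1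
  intro v hv
  rw [Function.mem_support] at hv
  by_contra hcon
  apply hv
  apply hR
  rw [mem_Icc, not_and_or, not_le, not_le] at hcon
  rcases hcon with h | h
  · have := neg_le_abs v
    linarith
  · have := le_abs_self v
    linarith

theorem t_UNF : S_UF → S_GGP → S_UNF := by
  intro hUF hGGP f hf hf0 x y α hxy hα
  obtain ⟨g1, g2, g3, g4, g5, g6⟩ := hGGP f hf hf0 x y hxy
  obtain ⟨K, hK0, hK⟩ := ct_bdd hf x y
  set R : ℝ := |x| + |y| with hR
  have hsupp : ∀ v, R < |v| → ct f x y v = 0 := fun v hv => ct_zero hv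
  set I : ℝ := ∫ t in x..y, f t with hI
  -- the set of differences
  obtain ⟨H, hH⟩ : ∃ H : ℤ, ∀ h : ℤ, h ∉ Finset.Icc (-H) H → y - x < |α * h| := by
    refine ⟨⌈(y - x) / α⌉, ?_⟩
    intro n hn
    have h1 : (y - x) / α < |(n : ℝ)| := by
      rw [Finset.mem_Icc, not_and_or, not_le, not_le] at hn
      have h2 := Int.le_ceil ((y - x) / α)
      rcases hn with h | h
      · have h3 : (n : ℝ) < -(⌈(y - x) / α⌉ : ℝ) := by exact_mod_cast h
        have := neg_le_abs (n : ℝ)
        linarith
      · have h3 : (⌈(y - x) / α⌉ : ℝ) < (n : ℝ) := by exact_mod_cast h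
        have := le_abs_self (n : ℝ)
        linarith
    rw [div_lt_iff₀ hα] at h1
    rw [abs_mul, abs_of_pos hα]
    linarith
  set φ : ℝ → ℝ := fun v => ct f x y v * ∑ h ∈ Finset.Icc (-H) H, ct f x y (v + α * h) with hφ
  have hmul : ∀ (v : ℝ) (h : ℤ), h ∉ Finset.Icc (-H) H → ct f x y v * ct f x y (v + α * h) = 0 := by
    intro v h hh
    have h1 := hH h hh
    by_cases hv : v ∈ Ioc x y
    · by_cases hv' : v + α * h ∈ Ioc x y
      · exfalso
        have : |α * (h : ℝ)| ≤ y - x := by
          rw [abs_le]
          constructor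
          · linarith [hv.2, hv'.1]
          · linarith [hv.1, hv'.2]
        linarith
      · have : ct f x y (v + α * h) = 0 := indicator_of_notMem hv' f
        rw [this, mul_zero]
    · have : ct f x y v = 0 := indicator_of_notMem hv f
      rw [this, zero_mul]
  have hφsm : ∀ v, φ v = ct f x y v * sm f x y α v := by
    intro v
    unfold sm
    rw [← tsum_mul_left]
    rw [tsum_eq_sum (s := Finset.Icc (-H) H)]
    · rw [hφ]
      simp only
      rw [Finset.mul_sum]
      refine Finset.sum_congr rfl fun h _ => ?_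
      rw [add_comm v]
    · intro h hh
      rw [add_comm (α * (h : ℝ)) v]
      exact hmul v h hh
  have hφm : Measurable φ := by
    refine (ct_meas hf x y).mul ?_
    refine Finset.measurable_sum _ fun n _ => ?_
    exact (ct_meas hf x y).comp (by fun_prop)
  have hφb : ∀ v, |φ v| ≤ K * ((Finset.Icc (-H) H).card * K) := by
    intro v
    rw [hφ]
    simp only
    rw [abs_mul]
    refine mul_le_mul (hK v) ?_ (abs_nonneg _) hK0
    refine (Finset.abs_sum_le_sum_abs _ _).trans ?_
    refine (Finset.sum_le_card_nsmul _ _ K fun h _ => hK _).trans ?_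
    rw [nsmul_eq_mul]
  have hφ0 : ∀ v, R < |v| → φ v = 0 := by
    intro v hv
    rw [hφ]
    simp only
    rw [hsupp v hv, zero_mul]
  obtain ⟨u1, u2⟩ := hUF φ _ R α hφm hφb hφ0 hα
  obtain ⟨w1, w2⟩ := hUF (ct f x y) K R α (ct_meas hf x y) hK hsupp hα
  -- `sm ^ 2`
  have hsq : ∀ β, ∑' n : ℤ, φ (α * n + β) = sm f x y α β ^ 2 := by
    intro β
    have hper : ∀ n : ℤ, sm f x y α (α * n + β) = sm f x y α β := by
      intro n
      have hnat : ∀ (m : ℕ) (b : ℝ), sm f x y α (b + α * m) = sm f x y α b := by
        intro m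
        induction m with
        | zero => intro b; simp
        | succ m ih =>
          intro b
          have : b + α * ((m + 1 : ℕ) : ℝ) = (b + α * m) + α := by push_cast; ring
          rw [this, sm_periodic, ih]
      rcases le_or_gt 0 n with hn | hn
      · obtain ⟨m, rfl⟩ := Int.eq_ofNat_of_zero_le hn
        have := hnat m β
        rw [add_comm] at this
        simpa using this
      · obtain ⟨m, hm⟩ := Int.eq_ofNat_of_zero_le (neg_nonneg.mpr hn.le)
        have h1 := hnat m (α * n + β)
        rw [← h1]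
        congr 1
        have h2 : (n : ℝ) = -(m : ℝ) := by
          have : n = -(m : ℤ) := by omega
          rw [this]
          push_cast
          ring
        rw [h2]
        ring
    have h1 : ∀ n : ℤ, φ (α * n + β) = ct f x y (α * n + β) * sm f x y α β := by
      intro n
      rw [hφsm, hper]
    rw [tsum_congr h1, tsum_mul_right, pow_two]
    rfl
  have hsm : ∀ β, ∑' n : ℤ, ct f x y (α * n + β) = sm f x y α β := fun β => rfl
  simp only [hsq] at u1 u2
  simp only [hsm] at w1 w2
  have hI' : ∫ v, ct f x y v = I := by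
    unfold ct
    rw [integral_indicator measurableSet_Ioc, hI, intervalIntegral.integral_of_le hxy]
  have hGs : ∫ v, φ v = ∑' h : ℤ, GG f x y (α * h) := by
    have e1 : φ = fun v => ∑ h ∈ Finset.Icc (-H) H, ct f x y v * ct f x y (v + α * h) := by
      funext v
      rw [hφ]
      simp only
      rw [Finset.mul_sum]
    rw [e1, integral_finsetSum]
    · rw [tsum_eq_sum (s := Finset.Icc (-H) H)]
      · rfl
      · intro h hh
        exact g5 _ (hH h hh)
    · intro h _
      refine integrable_of_bdd (M := K * K) (R := R) ?_ ?_ ?_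
      · exact (ct_meas hf x y).mul ((ct_meas hf x y).comp (by fun_prop))
      · intro v
        rw [abs_mul]
        exact mul_le_mul (hK _) (hK _) (abs_nonneg _) hK0
      · intro v hv
        rw [hsupp v hv, zero_mul]
  have hdd : (fun β => dd f x y α β ^ 2) = fun β => sm f x y α β ^ 2 -
      (2 * (I / α)) * sm f x y α β + (I / α) ^ 2 := by
    funext β
    unfold dd
    rw [← hI]
    ring
  rw [hdd]
  have i1 : IntervalIntegrable (fun β => sm f x y α β ^ 2 - (2 * (I / α)) * sm f x y α β)
      volume 0 α := u1.sub (w1.const_mul _)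
  refine ⟨i1.add intervalIntegrable_const, ?_⟩
  rw [intervalIntegral.integral_add i1 intervalIntegrable_const,
    intervalIntegral.integral_sub u1 (w1.const_mul _), intervalIntegral.integral_const_mul,
    intervalIntegral.integral_const, u2, w2, hGs, hI', g6]
  simp only [smul_eq_mul, sub_zero]
  field_simp
  ring

end Pool.Agent.D0H35.DM
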